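import Pool.Agent.E8helper55.UN.Block

/-!
# Large cosets in the sumsets of block-symmetric sets

Let `A ⊆ F_2^n` be a set of density `α`. If the coordinates, with respect to some basis and some
origin, can be divided into `k` blocks such that the membership in `A` depends only on the `k` numbers
of ones in these blocks, then `A + A` contains a subspace of codimension at most
`k + √(2 n (k log 2 + log (1/α)))`. For fixed density and `k = 1` (sets which are invariant under all
permutations of the coordinates) this is the order `√n` of the known example, which is a Hamming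
ball; for `k = o(n)` blocks the codimension is `o(n)`.

Proof: let `n_i` be the size of the block `i` and `w_i(u)` the weight of `u` in this block. Every
vector with even weights at most `2 min (w_i(u), n_i - w_i(u))` in all blocks is the sum of two
vectors with the weights `w_i(u)`. These vectors contain a subspace of codimension at most
`k + ∑ |n_i - 2 w_i(u)|`, and an exponential moment shows that `A` has a point `u` with
`(∑ |n_i - 2 w_i(u)|)² ≤ 2 n (k log 2 + log (1/α))`.
-/

set_option autoImplicit false

namespace Pool.Agent.Results.MP_9bde79_co.BlockSymmetricH55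

open Finset Module

/-- `F_2^n` -/
abbrev V (n : ℕ) := Fin n → ZMod 2

/-- the number of the ones of `x` in the block `i`, where `β` gives the block of each coordinate -/
def blockWeight {n k : ℕ} (β : Fin n → Fin k) (x : V n) (i : Fin k) : ℕ :=
  (univ.filter (fun j => β j = i ∧ x j = 1)).card

/-- For some division `β` of the coordinates into `k` blocks, some basis of the dual space (the
coordinates of `T x`) and some origin, the membership of `x` in `A` depends only on the numbers of
ones of `T x + s` in the `k` blocks. -/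
def BlockSymmetric {n : ℕ} (k : ℕ) (A : Finset (V n)) : Prop :=
  ∃ (β : Fin n → Fin k) (T : V n ≃ₗ[ZMod 2] V n) (s : V n),
    ∀ x ∈ A, ∀ y, (∀ i, blockWeight β (T y + s) i = blockWeight β (T x + s) i) → y ∈ A

open Pool.Agent.E8helper55.UN in
lemma weight_eq {n k : ℕ} (β : Fin n → Fin k) (x : V n) : blockWeight β x = bw β x := rfl

/-- the sign -/
noncomputable def sg (a : ZMod 2) : ℝ := if a = 1 then -1 else 1

open Pool.Agent.E8helper55.UN in
lemma block_sum {n k : ℕ} (β : Fin n → Fin k) (x : V n) (i : Fin k) :
    ∑ j ∈ blk β i, sg (x j) = ((blk β i).card : ℝ) - 2 * bw β x i := by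
  have h1 : bw β x i = ((blk β i).filter (fun j => x j = 1)).card := by
    unfold bw blk
    rw [filter_filter]
  have h2 : ∀ j ∈ blk β i, sg (x j) = 1 - 2 * (if x j = 1 then (1 : ℝ) else 0) := by
    intro j _
    unfold sg
    split_ifs <;> norm_num
  rw [sum_congr rfl h2, sum_sub_distrib, ← mul_sum, sum_boole, h1]
  simp

open Pool.Agent.E8helper55.UN in
lemma dev_eq {n k : ℕ} (β : Fin n → Fin k) (x : V n) :
    ∃ ε : V k, ((∑ i, dv β x i : ℕ) : ℝ) = ∑ j, sg (ε (β j)) * sg (x j) := by
  classical
  have h1 : ∀ i, ∃ a : ZMod 2, (dv β x i : ℝ) = sg a * ∑ j ∈ blk β i, sg (x j) := by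
    intro i
    have h2 := bw_le β x i
    rcases le_total (bw β x i) ((blk β i).card - bw β x i) with h | h
    · refine ⟨0, ?_⟩
      rw [block_sum]
      have h3 : dv β x i + 2 * bw β x i = (blk β i).card := by
        unfold dv
        rw [min_eq_left h]
        omega
      have h4 : (dv β x i : ℝ) + 2 * bw β x i = (blk β i).card := by exact_mod_cast h3
      have h5 : sg 0 = 1 := by
        unfold sg
        rw [if_neg (by decide)]
      rw [h5]
      linarith
    · refine ⟨1, ?_⟩
      rw [block_sum]
      have h3 : dv β x i + (blk β i).card = 2 * bw β x i := by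
        unfold dv
        rw [min_eq_right h]
        omega
      have h4 : (dv β x i : ℝ) + (blk β i).card = 2 * bw β x i := by exact_mod_cast h3
      have h5 : sg 1 = -1 := by
        unfold sg
        rw [if_pos rfl]
      rw [h5]
      linarith
  choose ε hε using h1
  refine ⟨ε, ?_⟩
  rw [Nat.cast_sum, sum_congr rfl (fun i _ => hε i),
    ← sum_fiberwise univ β (fun j => sg (ε (β j)) * sg (x j))]
  refine sum_congr rfl fun i _ => ?_
  rw [mul_sum]
  refine sum_congr rfl fun j hj => ?_
  have h3 : β j = i := (mem_filter.1 hj).2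
  rw [h3]

open Pool.Agent.E8helper55.UN in
lemma moment {n k : ℕ} (β : Fin n → Fin k) (la : ℝ) :
    ∑ x : V n, Real.exp (la * ((∑ i, dv β x i : ℕ) : ℝ)) ≤ 2 ^ k * (2 * Real.cosh la) ^ n := by
  classical
  have h1 : ∀ x : V n, Real.exp (la * ((∑ i, dv β x i : ℕ) : ℝ)) ≤
      ∑ ε : V k, ∏ j, Real.exp (la * (sg (ε (β j)) * sg (x j))) := by
    intro x
    obtain ⟨ε, hε⟩ := dev_eq β x
    have h2 : Real.exp (la * ((∑ i, dv β x i : ℕ) : ℝ)) =
        ∏ j, Real.exp (la * (sg (ε (β j)) * sg (x j))) := by
      rw [hε, mul_sum, Real.exp_sum]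
    rw [h2]
    exact single_le_sum (f := fun ε : V k => ∏ j, Real.exp (la * (sg (ε (β j)) * sg (x j))))
      (fun ε _ => prod_nonneg fun j _ => (Real.exp_pos _).le) (mem_univ ε)
  refine (sum_le_sum fun x _ => h1 x).trans ?_
  rw [sum_comm]
  have h3 : ∀ ε : V k, ∑ x : V n, ∏ j, Real.exp (la * (sg (ε (β j)) * sg (x j))) =
      (2 * Real.cosh la) ^ n := by
    intro ε
    have h4 : ∑ x : V n, ∏ j, Real.exp (la * (sg (ε (β j)) * sg (x j))) =
        ∏ j : Fin n, ∑ a : ZMod 2, Real.exp (la * (sg (ε (β j)) * sg a)) := by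
      rw [Finset.prod_univ_sum, Fintype.piFinset_univ]
    rw [h4]
    have h5 : ∀ j : Fin n, ∑ a : ZMod 2, Real.exp (la * (sg (ε (β j)) * sg a)) =
        2 * Real.cosh la := by
      intro j
      have hu : (univ : Finset (ZMod 2)) = {0, 1} := by decide
      have s0 : sg 0 = 1 := by
        unfold sg
        rw [if_neg (by decide)]
      have s1 : sg 1 = -1 := by
        unfold sg
        rw [if_pos rfl]
      rw [hu, sum_pair (by decide), s0, s1, Real.cosh_eq]
      rcases z2 (ε (β j)) with h | h
      · rw [h, s0, mul_one, one_mul, mul_one, mul_neg, mul_one]; ring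
      · rw [h, s1]
        have e1 : la * (-1 * 1) = -la := by ring
        have e2 : la * (-1 * -1) = la := by ring
        rw [e1, e2]; ring
    rw [prod_congr rfl (fun j _ => h5 j), prod_const, card_univ, Fintype.card_fin]
  rw [sum_congr rfl (fun ε _ => h3 ε), sum_const, card_univ, Fintype.card_fun, ZMod.card,
    Fintype.card_fin, nsmul_eq_mul]
  push_cast
  exact le_refl _

open Pool.Agent.E8helper55.UN in
/-- Let `A ⊆ F_2^n` be nonempty, and let the membership in `A` depend only on the numbers of ones in
`k` blocks of coordinates, with respect to some basis and some origin. Then `A + A` contains a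
subspace of codimension at most `k + √(2 n (k log 2 + log (2^n / |A|)))`. -/
theorem result {n k : ℕ} (A : Finset (V n)) (hA : A.Nonempty) (hS : BlockSymmetric k A) :
    ∃ W : Submodule (ZMod 2) (V n),
      (n : ℝ) - (k + √(2 * n * (k * Real.log 2 + Real.log (2 ^ n / #A)))) ≤
        finrank (ZMod 2) W ∧ ∀ w ∈ W, ∃ a ∈ A, ∃ a' ∈ A, a + a' = w := by
  classical
  obtain ⟨β, T, s, hT⟩ := hS
  have hinj : Function.Injective (fun x : V n => T x + s) := fun x y hxy =>
    T.injective (add_right_cancel hxy)
  set B : Finset (V n) := A.image (fun x => T x + s) with hB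
  have hBc : #B = #A := card_image_of_injective _ hinj
  have hBne : B.Nonempty := hA.image _
  have hBp : (0 : ℝ) < #B := by exact_mod_cast card_pos.2 hBne
  have hBs : ∀ u ∈ B, ∀ v : V n, (∀ i, bw β v i = bw β u i) → v ∈ B := by
    intro u hu v hv
    obtain ⟨x, hx, rfl⟩ := mem_image.1 hu
    rw [hB, mem_image]
    have h1 : T (T.symm (v + s)) + s = v := by
      rw [LinearEquiv.apply_symm_apply, add_assoc, vadd_self, add_zero]
    refine ⟨T.symm (v + s), hT x hx _ (fun i => ?_), h1⟩
    rw [h1]
    exact hv i
  obtain ⟨u, hu, hmin⟩ := exists_min_image B (fun x => ∑ i, dv β x i) hBne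
  set m0 : ℕ := ∑ i, dv β u i with hm0
  set L : ℝ := k * Real.log 2 + Real.log (2 ^ n / #B) with hL
  have key : ∀ la : ℝ, 0 ≤ la → la * m0 ≤ L + n * la ^ 2 / 2 := by
    intro la hla
    have h1 : (#B : ℝ) * Real.exp (la * m0) ≤ 2 ^ k * (2 * Real.cosh la) ^ n := by
      refine le_trans ?_ (moment β la)
      calc (#B : ℝ) * Real.exp (la * m0) = ∑ _x ∈ B, Real.exp (la * m0) := by
            rw [sum_const, nsmul_eq_mul]
        _ ≤ ∑ x ∈ B, Real.exp (la * ((∑ i, dv β x i : ℕ) : ℝ)) := by
            refine sum_le_sum fun x hx => Real.exp_le_exp.2 (mul_le_mul_of_nonneg_left ?_ hla)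
            exact Nat.cast_le.2 (hmin x hx)
        _ ≤ _ := sum_le_sum_of_subset_of_nonneg (subset_univ _)
            (fun x _ _ => (Real.exp_pos _).le)
    have h2 : (2 * Real.cosh la) ^ n ≤ 2 ^ n * Real.exp (n * la ^ 2 / 2) := by
      rw [mul_pow]
      refine mul_le_mul_of_nonneg_left ?_ (by positivity)
      refine (pow_le_pow_left₀ (Real.cosh_pos la).le (Real.cosh_le_exp_half_sq la) n).trans
        (le_of_eq ?_)
      rw [← Real.exp_nat_mul]
      congr 1
      ring
    have h3 : (#B : ℝ) * Real.exp (la * m0) ≤ 2 ^ k * (2 ^ n * Real.exp (n * la ^ 2 / 2)) :=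
      h1.trans (mul_le_mul_of_nonneg_left h2 (by positivity))
    have h4 := Real.log_le_log (by positivity) h3
    rw [Real.log_mul hBp.ne' (Real.exp_pos _).ne', Real.log_exp,
      Real.log_mul (by positivity) (by positivity), Real.log_mul (by positivity)
      (Real.exp_pos _).ne', Real.log_exp, Real.log_pow] at h4
    rw [hL, Real.log_div (by positivity) hBp.ne']
    linarith
  have hsq : (m0 : ℝ) ^ 2 ≤ 2 * n * L := by
    rcases Nat.eq_zero_or_pos n with hn | hn
    · have h1 : m0 = 0 := by
        rw [hm0]
        refine sum_eq_zero fun i _ => ?_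
        have h2 : (blk β i).card ≤ n := by
          have := card_le_univ (blk β i)
          rwa [Fintype.card_fin] at this
        unfold dv
        omega
      have h3 : (n : ℝ) = 0 := by exact_mod_cast hn
      rw [h1, h3]
      simp
    · have hn' : (0 : ℝ) < n := by exact_mod_cast hn
      have h1 := key (m0 / n) (by positivity)
      have h2 : (m0 : ℝ) / n * m0 = m0 ^ 2 / n := by ring
      have h3 : (n : ℝ) * (m0 / n) ^ 2 / 2 = m0 ^ 2 / n / 2 := by
        field_simp
      rw [h2, h3] at h1
      have h4 : (m0 : ℝ) ^ 2 / n ≤ 2 * L := by linarith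
      rw [div_le_iff₀ hn'] at h4
      linarith
  have hm : (m0 : ℝ) ≤ √(2 * n * L) := Real.le_sqrt_of_sq_le hsq
  obtain ⟨W, hW, hWs⟩ := space β u
  refine ⟨W.map (T.symm : V n →ₗ[ZMod 2] V n), ?_, ?_⟩
  · rw [LinearEquiv.finrank_map_eq, ← hBc]
    have h5 : (n : ℝ) ≤ finrank (ZMod 2) W + (m0 + k) := by exact_mod_cast hW
    linarith
  · intro w hw
    obtain ⟨z, hz, rfl⟩ := Submodule.mem_map.1 hw
    obtain ⟨u', h1, h2⟩ := hWs z hz
    obtain ⟨a, ha, ha2⟩ := mem_image.1 (hBs u hu u' h1)
    obtain ⟨a', ha', ha2'⟩ := mem_image.1 (hBs u hu (u' + z) h2)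
    refine ⟨a, ha, a', ha', ?_⟩
    apply T.injective
    change T (a + a') = T (T.symm z)
    rw [LinearEquiv.apply_symm_apply, map_add]
    have e1 : T a + T a' = (T a + s) + (T a' + s) := by
      have : (T a + s) + (T a' + s) = T a + T a' + (s + s) := by abel
      rw [this, vadd_self, add_zero]
    have ha3 : T a + s = u' := ha2
    have ha4 : T a' + s = u' + z := ha2'
    rw [e1, ha3, ha4, ← add_assoc, vadd_self, zero_add]

end Pool.Agent.Results.MP_9bde79_co.BlockSymmetricH55
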