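import Pool.Agent.E8helper55.UN.Main

/-!
# Large cosets in the sumsets of unate (for instance monotone) sets

A set `B ⊆ F_2^n` is unate if, for some basis of the dual space and some vector `s`, it is closed
under replacing coordinates by those of `s`: for instance up-sets, down-sets and half spaces of
`{0,1}^n`, and all images of such sets under affine bijections. If `A` contains a unate set of density
`β`, then `A + A` contains a coset of a subspace of codimension at most `√(2 n log (1/β))`.

So for fixed density the codimension `√n` of the known example, which is a Hamming ball and hence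
unate, is the right order for unate sets.

Proof: for down-sets `B_1, B_2` let `m` be the least number of coordinates that vanish at both of
`b_1, b_2`, over all `b_i ∈ B_i`. Then `exp (λ m) μ(B_1) μ(B_2) ≤ cosh (λ / 2)^(2 n)` for all
`λ ≥ 0`, by induction on `n`. The set `B_1 + B_2` contains all vectors which vanish at these `m`
coordinates.
-/

set_option autoImplicit false

namespace Pool.Agent.Results.MP_9bde79_co.UnateSumsetsH55

open Finset Module

/-- `F_2^n` -/
abbrev V (n : ℕ) := Fin n → ZMod 2

/-- For some basis of the dual space (the coordinates of `T x`) and some vector `s`, the set `B` is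
closed under replacing coordinates by those of `s`. -/
def Unate {n : ℕ} (B : Finset (V n)) : Prop :=
  ∃ (T : V n ≃ₗ[ZMod 2] V n) (s : V n),
    ∀ x ∈ B, ∀ y, (∀ i, T y i = T x i ∨ T y i = s i) → y ∈ B

/-- Let `A ⊆ F_2^n` contain a nonempty unate set `B` (for instance `A = B`). Then `A + A` contains a
coset `v + W` of a subspace `W` of codimension at most `√(2 n log (2^n / |B|))`. -/
theorem result {n : ℕ} (A B : Finset (V n)) (hB : B.Nonempty) (hU : Unate B) (hBA : B ⊆ A) :
    ∃ (v : V n) (W : Submodule (ZMod 2) (V n)),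
      (n : ℝ) - √(2 * n * Real.log (2 ^ n / #B)) ≤ finrank (ZMod 2) W ∧
        ∀ w ∈ W, ∃ a ∈ A, ∃ a' ∈ A, a + a' = v + w := by
  have hBp : (0 : ℝ) < #B := by exact_mod_cast card_pos.2 hB
  -- the number of the missing coordinates depends on the parameter, take it smallest possible
  have hex : ∃ m : ℕ, ∃ (v : V n) (W : Submodule (ZMod 2) (V n)), n ≤ finrank (ZMod 2) W + m ∧
      ∀ w ∈ W, ∃ a ∈ A, ∃ a' ∈ A, a + a' = v + w := by
    obtain ⟨b, hb⟩ := hB
    refine ⟨n, 0, ⊥, by omega, fun w hw => ⟨b, hBA hb, b, hBA hb, ?_⟩⟩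
    rw [(Submodule.mem_bot _).1 hw, add_zero]
    exact Pool.Agent.E8helper55.UN.vadd_self b
  classical
  obtain ⟨v, W, hW, hs⟩ := Nat.find_spec hex
  set m0 : ℕ := Nat.find hex with hm0
  have key : ∀ la : ℝ, 0 ≤ la →
      la * m0 ≤ la ^ 2 * n / 4 + 2 * Real.log ((2 : ℝ) ^ n / #B) := by
    intro la hla
    obtain ⟨m, v', W', hW', _, hm, hs'⟩ := Pool.Agent.E8helper55.UN.main 2 (by norm_num)
      (Real.exp la) (Real.cosh (la / 2) ^ 2) (Real.one_le_exp hla)
      (by have := Real.cosh_pos (la / 2); positivity)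
      (Pool.Agent.E8helper55.UN.cond_two la hla) B hB hU
    have hle : m0 ≤ m := Nat.find_min' hex ⟨v', W', hW', fun w hw => by
      obtain ⟨a, ha, hsum⟩ := hs' w hw
      rw [Fin.sum_univ_two] at hsum
      exact ⟨a 0, hBA (ha 0), a 1, hBA (ha 1), hsum⟩⟩
    have h1 : Real.exp la ^ m * (#B : ℝ) ^ 2 ≤ Real.exp (la ^ 2 * n / 4) * (2 ^ n) ^ 2 := by
      refine hm.trans (mul_le_mul_of_nonneg_right ?_ (by positivity))
      have h2 : Real.cosh (la / 2) ^ 2 ≤ Real.exp (la ^ 2 / 4) := by
        have h3 := pow_le_pow_left₀ (Real.cosh_pos (la / 2)).le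
          (Real.cosh_le_exp_half_sq (la / 2)) 2
        refine h3.trans (le_of_eq ?_)
        rw [← Real.exp_nat_mul]
        congr 1
        push_cast
        ring
      refine (pow_le_pow_left₀ (by positivity) h2 n).trans (le_of_eq ?_)
      rw [← Real.exp_nat_mul]
      congr 1
      ring
    have h4 : Real.exp (la * m) ≤ Real.exp (la ^ 2 * n / 4) * ((2 : ℝ) ^ n / #B) ^ 2 := by
      rw [div_pow, ← mul_div_assoc, le_div_iff₀ (by positivity)]
      have : Real.exp (la * m) = Real.exp la ^ m := by
        rw [← Real.exp_nat_mul]; congr 1; ring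
      rw [this]
      exact h1
    have h5 := Real.log_le_log (Real.exp_pos _) h4
    rw [Real.log_exp, Real.log_mul (Real.exp_pos _).ne' (by positivity), Real.log_exp,
      Real.log_pow] at h5
    push_cast at h5
    have h6 : (m0 : ℝ) ≤ m := by exact_mod_cast hle
    have h7 : la * m0 ≤ la * m := mul_le_mul_of_nonneg_left h6 hla
    linarith
  have hsq : (m0 : ℝ) ^ 2 ≤ 2 * n * Real.log ((2 : ℝ) ^ n / #B) := by
    rcases Nat.eq_zero_or_pos n with hn | hn
    · have h1 : m0 ≤ n := Nat.find_min' hex (by
        obtain ⟨b, hb⟩ := hB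
        refine ⟨0, ⊥, by omega, fun w hw => ⟨b, hBA hb, b, hBA hb, ?_⟩⟩
        rw [(Submodule.mem_bot _).1 hw, add_zero]
        exact Pool.Agent.E8helper55.UN.vadd_self b)
      have h2 : m0 = 0 := by omega
      have h3 : (n : ℝ) = 0 := by exact_mod_cast hn
      rw [h2, h3]
      simp
    · have hn' : (0 : ℝ) < n := by exact_mod_cast hn
      have h1 := key (2 * m0 / n) (by positivity)
      have h2 : 2 * (m0 : ℝ) / n * m0 = 2 * (m0 ^ 2 / n) := by ring
      have h3 : (2 * (m0 : ℝ) / n) ^ 2 * n / 4 = m0 ^ 2 / n := by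
        field_simp
        ring
      rw [h2, h3] at h1
      have h4 : (m0 : ℝ) ^ 2 / n ≤ 2 * Real.log ((2 : ℝ) ^ n / #B) := by linarith
      rw [div_le_iff₀ hn'] at h4
      linarith
  have hm : (m0 : ℝ) ≤ √(2 * n * Real.log ((2 : ℝ) ^ n / #B)) := Real.le_sqrt_of_sq_le hsq
  refine ⟨v, W, ?_, hs⟩
  have h5 : (n : ℝ) ≤ finrank (ZMod 2) W + m0 := by exact_mod_cast hW
  linarith

end Pool.Agent.Results.MP_9bde79_co.UnateSumsetsH55
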